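import Pool.Agent.helper52.EU.SpecW

/-! Row eu:WKL (MP_ad8ced_nt): Kusmin-Landau in a row. -/

set_option autoImplicit false

open Finset

namespace Pool.Agent.EU

open Pool.Agent.FI Pool.Agent.HK Pool.Agent.BP
open Pool.Agent.CH (nit)

/-- the phase -/
noncomputable def WKL_phi (t A B : ℝ) (x : ℝ) : ℝ := t / (2 * Real.pi) * Real.log (A * (B ^ 2 - x ^ 2))

lemma WKL_der (t A B x : ℝ) (hA : 0 < A) (hx : x ^ 2 < B ^ 2) :
    HasDerivAt (WKL_phi t A B) (-(t / Real.pi) * (x / (B ^ 2 - x ^ 2))) x := by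
  have hq : 0 < B ^ 2 - x ^ 2 := by linarith
  have hp : A * (B ^ 2 - x ^ 2) ≠ 0 := (mul_pos hA hq).ne'
  have h1 : HasDerivAt (fun x : ℝ => A * (B ^ 2 - x ^ 2)) (A * (-(2 * x))) x := by
    have h0 := ((hasDerivAt_pow 2 x).const_sub (B ^ 2)).const_mul A
    refine h0.congr_deriv ?_
    norm_num
  have h2 := (h1.log hp).const_mul (t / (2 * Real.pi))
  refine h2.congr_deriv ?_
  have hpi : Real.pi ≠ 0 := Real.pi_ne_zero
  have hq' : B ^ 2 - x ^ 2 ≠ 0 := hq.ne'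
  have hA' : A ≠ 0 := hA.ne'
  field_simp

lemma WKL_tanh (B u : ℝ) (hB : 0 < B) : (B * Real.tanh (u / 2)) ^ 2 < B ^ 2 ∧
    (B * Real.tanh (u / 2)) / (B ^ 2 - (B * Real.tanh (u / 2)) ^ 2) = Real.sinh u / (2 * B) := by
  have hc : 0 < Real.cosh (u / 2) := Real.cosh_pos _
  have hcs : Real.cosh (u / 2) ^ 2 = Real.sinh (u / 2) ^ 2 + 1 := Real.cosh_sq _
  have hsu : Real.sinh u = 2 * Real.sinh (u / 2) * Real.cosh (u / 2) := by
    have := Real.sinh_two_mul (u / 2)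
    rwa [mul_div_cancel₀ u (two_ne_zero)] at this
  have ht : Real.tanh (u / 2) = Real.sinh (u / 2) / Real.cosh (u / 2) := Real.tanh_eq_sinh_div_cosh _
  have h1 : B ^ 2 - (B * Real.tanh (u / 2)) ^ 2 = B ^ 2 / Real.cosh (u / 2) ^ 2 := by
    rw [ht]
    field_simp
    rw [hcs]
    ring
  constructor
  · have : 0 < B ^ 2 / Real.cosh (u / 2) ^ 2 := by positivity
    linarith
  · rw [h1, hsu, ht]
    field_simp

lemma WKL_ivt (B y y' x : ℝ) (hy : y ≤ y') (h1 : B * Real.tanh (y / 2) ≤ x) (h2 : x ≤ B * Real.tanh (y' / 2)) :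
    ∃ u, y ≤ u ∧ u ≤ y' ∧ B * Real.tanh (u / 2) = x := by
  have hcont : Continuous fun u : ℝ => B * Real.tanh (u / 2) := by
    have e : (fun u : ℝ => B * Real.tanh (u / 2)) = fun u : ℝ => B * (Real.sinh (u / 2) / Real.cosh (u / 2)) := by
      funext u
      rw [Real.tanh_eq_sinh_div_cosh]
    rw [e]
    exact continuous_const.mul ((Real.continuous_sinh.comp (continuous_id.div_const 2)).div
      (Real.continuous_cosh.comp (continuous_id.div_const 2)) fun u => (Real.cosh_pos _).ne')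
  obtain ⟨u, hu, hux⟩ := intermediate_value_Icc hy hcont.continuousOn ⟨h1, h2⟩
  exact ⟨u, hu.1, hu.2, hux⟩

/-- the increments of the phase -/
lemma WKL_inc (t A B y y' x x' : ℝ) (hA : 0 < A) (hB : 0 < B) (hy : y ≤ y') (hx : x < x')
    (h1 : B * Real.tanh (y / 2) < x) (h2 : x' ≤ B * Real.tanh (y' / 2)) :
    ∃ u, y ≤ u ∧ u ≤ y' ∧ WKL_phi t A B x' - WKL_phi t A B x = -((x' - x) * t * Real.sinh u / (2 * Real.pi * B)) := by
  have hin : ∀ z, x ≤ z → z ≤ x' → z ^ 2 < B ^ 2 := by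
    intro z hz1 hz2
    obtain ⟨u, -, -, hu⟩ := WKL_ivt B y y' z hy (by linarith) (by linarith)
    rw [← hu]
    exact (WKL_tanh B u hB).1
  have hcont : ContinuousOn (WKL_phi t A B) (Set.Icc x x') := fun z hz =>
    (WKL_der t A B z hA (hin z hz.1 hz.2)).continuousAt.continuousWithinAt
  obtain ⟨z, hz, hs⟩ := exists_hasDerivAt_eq_slope (WKL_phi t A B) (fun z => -(t / Real.pi) * (z / (B ^ 2 - z ^ 2))) hx hcont
    (fun z hz => WKL_der t A B z hA (hin z hz.1.le hz.2.le))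
  obtain ⟨u, hu1, hu2, hu⟩ := WKL_ivt B y y' z hy (by linarith [hz.1]) (by linarith [hz.2])
  refine ⟨u, hu1, hu2, ?_⟩
  have hv := (WKL_tanh B u hB).2
  rw [hu] at hv
  have hd : x' - x ≠ 0 := by linarith
  have e1 : WKL_phi t A B x' - WKL_phi t A B x = (x' - x) * (-(t / Real.pi) * (z / (B ^ 2 - z ^ 2))) := by
    rw [hs]
    field_simp
  rw [e1, hv]
  have hpi : Real.pi ≠ 0 := Real.pi_ne_zero
  field_simp

/-- the phase is concave -/
lemma WKL_conc (t A B x d : ℝ) (ht : 0 ≤ t) (hA : 0 < A) (h0 : x ^ 2 < B ^ 2) (h1 : (x + d) ^ 2 < B ^ 2)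
    (h2 : (x + 2 * d) ^ 2 < B ^ 2) :
    WKL_phi t A B (x + 2 * d) - WKL_phi t A B (x + d) ≤ WKL_phi t A B (x + d) - WKL_phi t A B x := by
  have p0 : 0 < A * (B ^ 2 - x ^ 2) := mul_pos hA (by linarith)
  have p1 : 0 < A * (B ^ 2 - (x + d) ^ 2) := mul_pos hA (by linarith)
  have p2 : 0 < A * (B ^ 2 - (x + 2 * d) ^ 2) := mul_pos hA (by linarith)
  have key : (A * (B ^ 2 - x ^ 2)) * (A * (B ^ 2 - (x + 2 * d) ^ 2)) ≤ (A * (B ^ 2 - (x + d) ^ 2)) ^ 2 := by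
    have e : (A * (B ^ 2 - (x + d) ^ 2)) ^ 2 - (A * (B ^ 2 - x ^ 2)) * (A * (B ^ 2 - (x + 2 * d) ^ 2)) =
        A ^ 2 * d ^ 2 * ((B ^ 2 - x ^ 2) + (B ^ 2 - (x + 2 * d) ^ 2) + 4 * (x + d) ^ 2 + d ^ 2) := by ring
    have : 0 ≤ A ^ 2 * d ^ 2 * ((B ^ 2 - x ^ 2) + (B ^ 2 - (x + 2 * d) ^ 2) + 4 * (x + d) ^ 2 + d ^ 2) := by
      have q0 : 0 < B ^ 2 - x ^ 2 := by linarith
      have q2 : 0 < B ^ 2 - (x + 2 * d) ^ 2 := by linarith
      positivity
    linarith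
  have hl : Real.log (A * (B ^ 2 - x ^ 2)) + Real.log (A * (B ^ 2 - (x + 2 * d) ^ 2)) ≤
      2 * Real.log (A * (B ^ 2 - (x + d) ^ 2)) := by
    have := Real.log_le_log (mul_pos p0 p2) key
    rw [Real.log_mul p0.ne' p2.ne', Real.log_pow] at this
    push_cast at this
    exact this
  unfold WKL_phi
  have hc : 0 ≤ t / (2 * Real.pi) := by positivity
  nlinarith

lemma WKL_enum (S : Finset ℤ) (q : ℤ) (hq : 1 ≤ q) (hS : S.Nonempty) (h1 : ∀ a ∈ S, ∀ b ∈ S, q ∣ b - a)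
    (h2 : ∀ a ∈ S, ∀ b ∈ S, ∀ c : ℤ, a ≤ c → c ≤ b → q ∣ c - a → c ∈ S) :
    ∃ (m : ℤ) (N : ℕ), (∀ F : ℤ → ℂ, ∑ x ∈ S, F x = ∑ k ∈ range (N + 1), F (m + q * k)) ∧
      ∀ k : ℕ, k ≤ N → m + q * k ∈ S := by
  classical
  set m0 := S.min' hS with hm0
  set m1 := S.max' hS with hm1
  have hm0S : m0 ∈ S := S.min'_mem hS
  have hm1S : m1 ∈ S := S.max'_mem hS
  have hle : m0 ≤ m1 := S.min'_le _ hm1S
  obtain ⟨j, hj⟩ := h1 m0 hm0S m1 hm1S
  have hj0 : 0 ≤ j := by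
    by_contra hc
    push Not at hc
    have : q * j < 0 := mul_neg_of_pos_of_neg (by omega) hc
    omega
  obtain ⟨N, rfl⟩ := Int.eq_ofNat_of_zero_le hj0
  have hmem : ∀ k : ℕ, k ≤ N → m0 + q * k ∈ S := by
    intro k hk
    refine h2 m0 hm0S m1 hm1S _ ?_ ?_ ⟨k, by ring⟩
    · have : 0 ≤ q * (k : ℤ) := mul_nonneg (by omega) (by positivity)
      omega
    · have : q * (k : ℤ) ≤ q * (N : ℤ) := mul_le_mul_of_nonneg_left (by exact_mod_cast hk) (by omega)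
      omega
  refine ⟨m0, N, fun F => ?_, hmem⟩
  have himg : S = (range (N + 1)).image (fun k : ℕ => m0 + q * (k : ℤ)) := by
    ext x
    rw [Finset.mem_image]
    constructor
    · intro hx
      obtain ⟨i, hi⟩ := h1 m0 hm0S x hx
      have hx0 : m0 ≤ x := S.min'_le _ hx
      have hx1 : x ≤ m1 := S.le_max' _ hx
      have hi0 : 0 ≤ i := by
        by_contra hc
        push Not at hc
        have : q * i < 0 := mul_neg_of_pos_of_neg (by omega) hc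
        omega
      obtain ⟨k, rfl⟩ := Int.eq_ofNat_of_zero_le hi0
      refine ⟨k, ?_, by omega⟩
      rw [Finset.mem_range]
      have h3 : q * (k : ℤ) ≤ q * (N : ℤ) := by
        have : x - m0 ≤ m1 - m0 := by omega
        rw [hi, hj] at this
        exact this
      have h4 : (k : ℤ) ≤ N := le_of_mul_le_mul_left h3 (by omega)
      have : k ≤ N := by exact_mod_cast h4
      omega
    · rintro ⟨k, hk, rfl⟩
      exact hmem k (by rw [Finset.mem_range] at hk; omega)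
  have hinj : Set.InjOn (fun k : ℕ => m0 + q * (k : ℤ)) (range (N + 1) : Set ℕ) := by
    intro a _ b _ hab
    have h5 : m0 + q * (a : ℤ) = m0 + q * (b : ℤ) := hab
    have h6 : q * (a : ℤ) = q * (b : ℤ) := by omega
    have h7 : (a : ℤ) = b := mul_left_cancel₀ (by omega) h6
    exact_mod_cast h7
  conv_lhs => rw [himg]
  rw [Finset.sum_image hinj]

lemma WKL_ee (x : ℝ) (k : ℤ) : AM.ee (x + k) = AM.ee x := by
  unfold AM.ee
  have : ((2 * Real.pi * (x + k) : ℝ) : ℂ) * Complex.I = ((2 * Real.pi * x : ℝ) : ℂ) * Complex.I +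
      (k : ℂ) * (2 * Real.pi * Complex.I) := by
    push_cast
    ring
  rw [this, Complex.exp_add, Complex.exp_int_mul_two_pi_mul_I, mul_one]

lemma WKL_nn (sg n m : ℤ) (hsg : sg = 1 ∨ sg = -1) (hm : (m : ℝ) ^ 2 < (rb sg * n) ^ 2) :
    (nn (pz sg n m) : ℝ) = ra sg / rb sg ^ 2 * ((rb sg * n) ^ 2 - (m : ℝ) ^ 2) := by
  have h8 : (√8 : ℝ) ^ 2 = 8 := Real.sq_sqrt (by norm_num)
  rcases hsg with rfl | rfl
  · have hb : rb 1 = 1 / √8 := by unfold rb; rw [if_pos rfl]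
    have ha : ra 1 = 1 := by unfold ra; rw [if_pos rfl]
    have hp : pz 1 n m = (n, m) := by unfold pz; rw [if_pos rfl]
    rw [hb] at hm
    rw [ha, hb, hp]
    have e1 : ((1 : ℝ) / √8 * n) ^ 2 = (n : ℝ) ^ 2 / 8 := by
      rw [mul_pow, div_pow, h8]
      ring
    rw [e1] at hm
    rw [e1, div_pow, h8]
    unfold nn N8
    rw [Nat.cast_natAbs]
    push_cast
    rw [abs_of_pos (by linarith)]
    ring
  · have hb : rb (-1) = √8 := by unfold rb; rw [if_neg (by norm_num)]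
    have ha : ra (-1) = 8 := by unfold ra; rw [if_neg (by norm_num)]
    have hp : pz (-1) n m = (m, n) := by unfold pz; rw [if_neg (by norm_num)]
    rw [hb] at hm
    rw [ha, hb, hp]
    have e1 : ((√8 : ℝ) * n) ^ 2 = 8 * (n : ℝ) ^ 2 := by
      rw [mul_pow, h8]
    rw [e1] at hm
    rw [e1, h8]
    unfold nn N8
    rw [Nat.cast_natAbs]
    push_cast
    rw [abs_of_neg (by linarith)]
    ring

lemma WKL_pos (hKL : AM.KL_stmt) (t A B y y' θ lo hi : ℝ) (m0 q : ℤ) (N k : ℕ) (ht : 0 < t) (hA : 0 < A) (hB : 0 < B)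
    (hy : y ≤ y') (hq : 1 ≤ q) (hside : 0 ≤ y ∨ y' ≤ 0)
    (hsh : ∀ u : ℝ, y ≤ u → u ≤ y' → lo ≤ |Real.sinh u| ∧ |Real.sinh u| ≤ hi) (hθ : 0 < θ) (hθ2 : θ ≤ 1 / 2)
    (hlo : k + θ ≤ q * t * lo / (2 * Real.pi * B)) (hhi : q * t * hi / (2 * Real.pi * B) ≤ k + 1 - θ)
    (hm : ∀ j : ℕ, j ≤ N → B * Real.tanh (y / 2) < ((m0 + q * j : ℤ) : ℝ) ∧
      ((m0 + q * j : ℤ) : ℝ) ≤ B * Real.tanh (y' / 2)) :
    ‖∑ j ∈ range (N + 1), AM.ee (WKL_phi t A B ((m0 + q * j : ℤ) : ℝ))‖ ≤ 1 / θ := by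
  have hq0 : (0 : ℝ) < q := by exact_mod_cast (by omega : 0 < q)
  have hpi := Real.pi_pos
  have hD : 0 < 2 * Real.pi * B := by positivity
  have hstep : ∀ j : ℕ, ((m0 + q * ((j + 1 : ℕ) : ℤ) : ℤ) : ℝ) = ((m0 + q * j : ℤ) : ℝ) + q := by
    intro j
    push_cast
    ring
  have hinc : ∀ j : ℕ, j < N → ∃ u, y ≤ u ∧ u ≤ y' ∧
      WKL_phi t A B ((m0 + q * ((j + 1 : ℕ) : ℤ) : ℤ) : ℝ) - WKL_phi t A B ((m0 + q * j : ℤ) : ℝ) =
        -(q * t * Real.sinh u / (2 * Real.pi * B)) := by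
    intro j hj
    obtain ⟨u, hu1, hu2, hu⟩ := WKL_inc t A B y y' ((m0 + q * j : ℤ) : ℝ) ((m0 + q * ((j + 1 : ℕ) : ℤ) : ℤ) : ℝ) hA hB hy
      (by rw [hstep]; linarith) (hm j hj.le).1 (hm (j + 1) hj).2
    refine ⟨u, hu1, hu2, ?_⟩
    rw [hu, hstep]
    ring
  have hsq : ∀ j : ℕ, j ≤ N → ((m0 + q * j : ℤ) : ℝ) ^ 2 < B ^ 2 := by
    intro j hj
    obtain ⟨u, -, -, hu⟩ := WKL_ivt B y y' _ hy (hm j hj).1.le (hm j hj).2
    rw [← hu]
    exact (WKL_tanh B u hB).1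
  have hconc : ∀ j : ℕ, j + 1 < N →
      WKL_phi t A B ((m0 + q * ((j + 2 : ℕ) : ℤ) : ℤ) : ℝ) - WKL_phi t A B ((m0 + q * ((j + 1 : ℕ) : ℤ) : ℤ) : ℝ) ≤
      WKL_phi t A B ((m0 + q * ((j + 1 : ℕ) : ℤ) : ℤ) : ℝ) - WKL_phi t A B ((m0 + q * j : ℤ) : ℝ) := by
    intro j hj
    have e1 := hstep j
    have e2 : ((m0 + q * ((j + 2 : ℕ) : ℤ) : ℤ) : ℝ) = ((m0 + q * j : ℤ) : ℝ) + 2 * q := by
      push_cast
      ring
    have s0 := hsq j (by omega)
    have s1 := hsq (j + 1) (by omega)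
    have s2 := hsq (j + 2) (by omega)
    rw [e1] at s1
    rw [e2] at s2
    rw [e1, e2]
    exact WKL_conc t A B _ q ht.le hA s0 s1 s2
  have hbd : ∀ u, y ≤ u → u ≤ y' → (k : ℝ) + θ ≤ q * t * |Real.sinh u| / (2 * Real.pi * B) ∧
      q * t * |Real.sinh u| / (2 * Real.pi * B) ≤ k + 1 - θ := by
    intro u hu1 hu2
    obtain ⟨g1, g2⟩ := hsh u hu1 hu2
    have hqt : 0 ≤ q * t := by positivity
    constructor
    · refine hlo.trans ?_
      exact div_le_div_of_nonneg_right (mul_le_mul_of_nonneg_left g1 hqt) hD.le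
    · refine le_trans ?_ hhi
      exact div_le_div_of_nonneg_right (mul_le_mul_of_nonneg_left g2 hqt) hD.le
  rcases hside with hs | hs
  · have hx := hKL N (fun j => WKL_phi t A B ((m0 + q * j : ℤ) : ℝ) + ((((k : ℤ) + 1) * (j : ℤ) : ℤ) : ℝ)) θ hθ hθ2
      (fun j hj => by
        obtain ⟨u, hu1, hu2, hu⟩ := hinc j hj
        obtain ⟨g1, g2⟩ := hbd u hu1 hu2
        rw [abs_of_nonneg (Real.sinh_nonneg_iff.mpr (hs.trans hu1))] at g1 g2
        change θ ≤ (WKL_phi t A B ((m0 + q * ((j + 1 : ℕ) : ℤ) : ℤ) : ℝ) + ((((k : ℤ) + 1) * ((j + 1 : ℕ) : ℤ) : ℤ) : ℝ)) -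
          (WKL_phi t A B ((m0 + q * j : ℤ) : ℝ) + ((((k : ℤ) + 1) * (j : ℤ) : ℤ) : ℝ))
        push_cast at hu ⊢
        linarith)
      (fun j hj => by
        obtain ⟨u, hu1, hu2, hu⟩ := hinc j hj
        obtain ⟨g1, g2⟩ := hbd u hu1 hu2
        rw [abs_of_nonneg (Real.sinh_nonneg_iff.mpr (hs.trans hu1))] at g1 g2
        change (WKL_phi t A B ((m0 + q * ((j + 1 : ℕ) : ℤ) : ℤ) : ℝ) + ((((k : ℤ) + 1) * ((j + 1 : ℕ) : ℤ) : ℤ) : ℝ)) -
          (WKL_phi t A B ((m0 + q * j : ℤ) : ℝ) + ((((k : ℤ) + 1) * (j : ℤ) : ℤ) : ℝ)) ≤ 1 - θ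
        push_cast at hu ⊢
        linarith)
      (fun j hj => by
        have := hconc j hj
        change (WKL_phi t A B ((m0 + q * ((j + 2 : ℕ) : ℤ) : ℤ) : ℝ) + ((((k : ℤ) + 1) * ((j + 2 : ℕ) : ℤ) : ℤ) : ℝ)) -
          (WKL_phi t A B ((m0 + q * ((j + 1 : ℕ) : ℤ) : ℤ) : ℝ) + ((((k : ℤ) + 1) * ((j + 1 : ℕ) : ℤ) : ℤ) : ℝ)) ≤
          (WKL_phi t A B ((m0 + q * ((j + 1 : ℕ) : ℤ) : ℤ) : ℝ) + ((((k : ℤ) + 1) * ((j + 1 : ℕ) : ℤ) : ℤ) : ℝ)) -
          (WKL_phi t A B ((m0 + q * j : ℤ) : ℝ) + ((((k : ℤ) + 1) * (j : ℤ) : ℤ) : ℝ))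
        push_cast at this ⊢
        linarith)
    refine le_trans (le_of_eq ?_) hx
    refine congrArg _ (Finset.sum_congr rfl fun j _ => ?_)
    exact (WKL_ee _ _).symm
  · have hx := hKL N (fun j => WKL_phi t A B ((m0 + q * j : ℤ) : ℝ) + ((-((k : ℤ) * (j : ℤ)) : ℤ) : ℝ)) θ hθ hθ2
      (fun j hj => by
        obtain ⟨u, hu1, hu2, hu⟩ := hinc j hj
        obtain ⟨g1, g2⟩ := hbd u hu1 hu2
        rw [abs_of_nonpos (Real.sinh_nonpos_iff.mpr (hu2.trans hs))] at g1 g2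
        have e3 : (q : ℝ) * t * -Real.sinh u / (2 * Real.pi * B) = -(q * t * Real.sinh u / (2 * Real.pi * B)) := by ring
        rw [e3] at g1 g2
        change θ ≤ (WKL_phi t A B ((m0 + q * ((j + 1 : ℕ) : ℤ) : ℤ) : ℝ) + ((-((k : ℤ) * ((j + 1 : ℕ) : ℤ)) : ℤ) : ℝ)) -
          (WKL_phi t A B ((m0 + q * j : ℤ) : ℝ) + ((-((k : ℤ) * (j : ℤ)) : ℤ) : ℝ))
        push_cast at hu ⊢
        linarith)
      (fun j hj => by
        obtain ⟨u, hu1, hu2, hu⟩ := hinc j hj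
        obtain ⟨g1, g2⟩ := hbd u hu1 hu2
        rw [abs_of_nonpos (Real.sinh_nonpos_iff.mpr (hu2.trans hs))] at g1 g2
        have e3 : (q : ℝ) * t * -Real.sinh u / (2 * Real.pi * B) = -(q * t * Real.sinh u / (2 * Real.pi * B)) := by ring
        rw [e3] at g1 g2
        change (WKL_phi t A B ((m0 + q * ((j + 1 : ℕ) : ℤ) : ℤ) : ℝ) + ((-((k : ℤ) * ((j + 1 : ℕ) : ℤ)) : ℤ) : ℝ)) -
          (WKL_phi t A B ((m0 + q * j : ℤ) : ℝ) + ((-((k : ℤ) * (j : ℤ)) : ℤ) : ℝ)) ≤ 1 - θ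
        push_cast at hu ⊢
        linarith)
      (fun j hj => by
        have := hconc j hj
        change (WKL_phi t A B ((m0 + q * ((j + 2 : ℕ) : ℤ) : ℤ) : ℝ) + ((-((k : ℤ) * ((j + 2 : ℕ) : ℤ)) : ℤ) : ℝ)) -
          (WKL_phi t A B ((m0 + q * ((j + 1 : ℕ) : ℤ) : ℤ) : ℝ) + ((-((k : ℤ) * ((j + 1 : ℕ) : ℤ)) : ℤ) : ℝ)) ≤
          (WKL_phi t A B ((m0 + q * ((j + 1 : ℕ) : ℤ) : ℤ) : ℝ) + ((-((k : ℤ) * ((j + 1 : ℕ) : ℤ)) : ℤ) : ℝ)) -
          (WKL_phi t A B ((m0 + q * j : ℤ) : ℝ) + ((-((k : ℤ) * (j : ℤ)) : ℤ) : ℝ))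
        push_cast at this ⊢
        linarith)
    refine le_trans (le_of_eq ?_) hx
    refine congrArg _ (Finset.sum_congr rfl fun j _ => ?_)
    exact (WKL_ee _ _).symm

lemma WKL_nit (t A B x v : ℝ) (hv : v = A * (B ^ 2 - x ^ 2)) : nit t v = AM.ee (WKL_phi t A B x) := by
  unfold Pool.Agent.CH.nit AM.ee WKL_phi
  rw [hv]
  have hpi : Real.pi ≠ 0 := Real.pi_ne_zero
  have e : 2 * Real.pi * (t / (2 * Real.pi) * Real.log (A * (B ^ 2 - x ^ 2))) = t * Real.log (A * (B ^ 2 - x ^ 2)) := by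
    field_simp
  rw [e]

lemma WKL_conj (t v : ℝ) : nit t v = (starRingEnd ℂ) (nit (-t) v) := by
  unfold Pool.Agent.CH.nit
  rw [← Complex.exp_conj, map_mul, Complex.conj_I, Complex.conj_ofReal]
  congr 1
  push_cast
  ring

theorem WKL (hKL : AM.KL_stmt) : WKL_stmt := by
  classical
  intro M M' q c sg y h t θ lo hi n k hsg hq hn hy0 hh hyl hside hsh hθ hθ2 hlo hhi
  have hpi := Real.pi_pos
  have hn0 : (0 : ℝ) < n := by exact_mod_cast (by omega : 0 < n)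
  have hb : 0 < rb sg := by
    rcases hsg with rfl | rfl
    · unfold rb
      rw [if_pos rfl]
      positivity
    · unfold rb
      rw [if_neg (by norm_num)]
      positivity
  have ha : 0 < ra sg := by
    rcases hsg with rfl | rfl
    · unfold ra
      rw [if_pos rfl]
      norm_num
    · unfold ra
      rw [if_neg (by norm_num)]
      norm_num
  have hB : 0 < rb sg * (n : ℝ) := mul_pos hb hn0
  have hA : 0 < ra sg / rb sg ^ 2 := by positivity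
  have hD : 0 < 2 * Real.pi * (rb sg * n) := by positivity
  have hDe : 2 * Real.pi * rb sg * (n : ℝ) = 2 * Real.pi * (rb sg * n) := by ring
  rw [hDe] at hlo hhi
  have hyy : y ≤ y + h := by linarith
  rcases (RowS M M' q c sg y h n).eq_empty_or_nonempty with he | hne
  · rw [he, Finset.sum_empty, norm_zero]
    positivity
  have hrow : ∀ m : ℤ, m ∈ RowS M M' q c sg y h n ↔ m ∈ Icc (-(2 * n)) (2 * n) ∧ rb sg * n * Real.tanh (y / 2) < m ∧
      (m : ℝ) ≤ rb sg * n * Real.tanh ((y + h) / 2) ∧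
      M < nn (pz sg n m) ∧ nn (pz sg n m) ≤ M' ∧ (q : ℤ) ∣ (pz sg n m).1 - c.1 ∧ (q : ℤ) ∣ (pz sg n m).2 - c.2 := by
    intro m
    unfold RowS
    rw [Finset.mem_filter]
  have hsq : ∀ m : ℤ, rb sg * n * Real.tanh (y / 2) < m → (m : ℝ) ≤ rb sg * n * Real.tanh ((y + h) / 2) →
      (m : ℝ) ^ 2 < (rb sg * n) ^ 2 := by
    intro m h1 h2
    obtain ⟨u, -, -, hu⟩ := WKL_ivt (rb sg * n) y (y + h) m hyy h1.le h2
    rw [← hu]
    exact (WKL_tanh (rb sg * n) u hB).1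
  have hdiv : ∀ m m' : ℤ, (q : ℤ) ∣ m' - m → (q : ℤ) ∣ (pz sg n m).1 - c.1 → (q : ℤ) ∣ (pz sg n m).2 - c.2 →
      (q : ℤ) ∣ (pz sg n m').1 - c.1 ∧ (q : ℤ) ∣ (pz sg n m').2 - c.2 := by
    intro m m' h1 h2 h3
    rcases hsg with rfl | rfl
    · have hp : ∀ m : ℤ, pz 1 n m = (n, m) := fun m => by unfold pz; rw [if_pos rfl]
      rw [hp] at h2 h3 ⊢
      refine ⟨h2, ?_⟩
      have : m' - c.2 = (m' - m) + (m - c.2) := by ring
      change (q : ℤ) ∣ m' - c.2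
      rw [this]
      exact dvd_add h1 h3
    · have hp : ∀ m : ℤ, pz (-1) n m = (m, n) := fun m => by unfold pz; rw [if_neg (by norm_num)]
      rw [hp] at h2 h3 ⊢
      refine ⟨?_, h3⟩
      have : m' - c.1 = (m' - m) + (m - c.1) := by ring
      change (q : ℤ) ∣ m' - c.1
      rw [this]
      exact dvd_add h1 h2
  have hdiv2 : ∀ m m' : ℤ, (q : ℤ) ∣ (pz sg n m).1 - c.1 → (q : ℤ) ∣ (pz sg n m).2 - c.2 →
      (q : ℤ) ∣ (pz sg n m').1 - c.1 → (q : ℤ) ∣ (pz sg n m').2 - c.2 → (q : ℤ) ∣ m' - m := by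
    intro m m' h1 h2 h3 h4
    rcases hsg with rfl | rfl
    · have hp : ∀ m : ℤ, pz 1 n m = (n, m) := fun m => by unfold pz; rw [if_pos rfl]
      rw [hp] at h1 h2 h3 h4
      have : m' - m = (m' - c.2) - (m - c.2) := by ring
      rw [this]
      exact dvd_sub h4 h2
    · have hp : ∀ m : ℤ, pz (-1) n m = (m, n) := fun m => by unfold pz; rw [if_neg (by norm_num)]
      rw [hp] at h1 h2 h3 h4
      have : m' - m = (m' - c.1) - (m - c.1) := by ring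
      rw [this]
      exact dvd_sub h3 h1
  have hnn : ∀ a b : ℤ, (a : ℝ) ^ 2 ≤ (b : ℝ) ^ 2 → (a : ℝ) ^ 2 < (rb sg * n) ^ 2 → (b : ℝ) ^ 2 < (rb sg * n) ^ 2 →
      nn (pz sg n b) ≤ nn (pz sg n a) := by
    intro a b h1 h2 h3
    have e1 := WKL_nn sg n a hsg h2
    have e2 := WKL_nn sg n b hsg h3
    have : (nn (pz sg n b) : ℝ) ≤ nn (pz sg n a) := by
      rw [e1, e2]
      exact mul_le_mul_of_nonneg_left (by linarith) hA.le
    exact_mod_cast this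
  have hconv : ∀ a ∈ RowS M M' q c sg y h n, ∀ b ∈ RowS M M' q c sg y h n, ∀ d : ℤ, a ≤ d → d ≤ b → (q : ℤ) ∣ d - a →
      d ∈ RowS M M' q c sg y h n := by
    intro a ha' b hb' d hd1 hd2 hqd
    rw [hrow] at ha' hb' ⊢
    obtain ⟨a1, a2, a3, a4, a5, a6, a7⟩ := ha'
    obtain ⟨b1, b2, b3, b4, b5, b6, b7⟩ := hb'
    have r1 : (a : ℝ) ≤ d := by exact_mod_cast hd1
    have r2 : (d : ℝ) ≤ b := by exact_mod_cast hd2
    rw [Finset.mem_Icc] at a1 b1 ⊢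
    obtain ⟨d1, d2⟩ := hdiv a d hqd a6 a7
    have sa := hsq a a2 a3
    have sb := hsq b b2 b3
    have sd := hsq d (by linarith) (by linarith)
    refine ⟨⟨by omega, by omega⟩, by linarith, by linarith, ?_, ?_, d1, d2⟩
    · rcases hside with hs | hs
      · have h0 : 0 ≤ rb sg * n * Real.tanh (y / 2) := by
          refine mul_nonneg hB.le ?_
          rw [Real.tanh_eq_sinh_div_cosh]
          exact div_nonneg (Real.sinh_nonneg_iff.mpr (by linarith)) (Real.cosh_pos _).le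
        have hd0 : 0 ≤ (d : ℝ) := by linarith
        exact lt_of_lt_of_le b4 (hnn d b (by nlinarith) sd sb)
      · have h0 : rb sg * n * Real.tanh ((y + h) / 2) ≤ 0 := by
          refine mul_nonpos_of_nonneg_of_nonpos hB.le ?_
          rw [Real.tanh_eq_sinh_div_cosh]
          exact div_nonpos_of_nonpos_of_nonneg (Real.sinh_nonpos_iff.mpr (by linarith)) (Real.cosh_pos _).le
        have hd0 : (d : ℝ) ≤ 0 := by linarith
        exact lt_of_lt_of_le a4 (hnn d a (by nlinarith) sd sa)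
    · rcases hside with hs | hs
      · have h0 : 0 ≤ rb sg * n * Real.tanh (y / 2) := by
          refine mul_nonneg hB.le ?_
          rw [Real.tanh_eq_sinh_div_cosh]
          exact div_nonneg (Real.sinh_nonneg_iff.mpr (by linarith)) (Real.cosh_pos _).le
        have ha0 : 0 ≤ (a : ℝ) := by linarith
        exact (hnn a d (by nlinarith) sa sd).trans a5
      · have h0 : rb sg * n * Real.tanh ((y + h) / 2) ≤ 0 := by
          refine mul_nonpos_of_nonneg_of_nonpos hB.le ?_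
          rw [Real.tanh_eq_sinh_div_cosh]
          exact div_nonpos_of_nonpos_of_nonneg (Real.sinh_nonpos_iff.mpr (by linarith)) (Real.cosh_pos _).le
        have hb0 : (b : ℝ) ≤ 0 := by linarith
        exact (hnn b d (by nlinarith) sb sd).trans b5
  obtain ⟨m0, N, hsum, hmS⟩ := WKL_enum (RowS M M' q c sg y h n) (q : ℤ) (by exact_mod_cast hq) hne
    (fun a ha' b hb' => by
      rw [hrow] at ha' hb'
      exact hdiv2 a b ha'.2.2.2.2.2.1 ha'.2.2.2.2.2.2 hb'.2.2.2.2.2.1 hb'.2.2.2.2.2.2) hconv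
  have hmm : ∀ j : ℕ, j ≤ N → rb sg * n * Real.tanh (y / 2) < ((m0 + (q : ℤ) * j : ℤ) : ℝ) ∧
      ((m0 + (q : ℤ) * j : ℤ) : ℝ) ≤ rb sg * n * Real.tanh ((y + h) / 2) := by
    intro j hj
    have := (hrow _).mp (hmS j hj)
    exact ⟨this.2.1, this.2.2.1⟩
  have hval : ∀ (s : ℝ) (j : ℕ), j ∈ range (N + 1) → nit s (nn (pz sg n (m0 + (q : ℤ) * j))) =
      AM.ee (WKL_phi s (ra sg / rb sg ^ 2) (rb sg * n) ((m0 + (q : ℤ) * j : ℤ) : ℝ)) := by
    intro s j hj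
    rw [Finset.mem_range] at hj
    obtain ⟨g1, g2⟩ := hmm j (by omega)
    exact WKL_nit _ _ _ _ _ (WKL_nn sg n _ hsg (hsq _ g1 g2))
  have hqc : (((q : ℕ) : ℤ) : ℝ) = (q : ℝ) := by push_cast; rfl
  rw [hsum]
  rcases lt_trichotomy t 0 with ht | ht | ht
  · have hc : ∑ j ∈ range (N + 1), nit t (nn (pz sg n (m0 + (q : ℤ) * j))) =
        (starRingEnd ℂ) (∑ j ∈ range (N + 1), nit (-t) (nn (pz sg n (m0 + (q : ℤ) * j)))) := by
      rw [map_sum]
      exact Finset.sum_congr rfl fun j _ => WKL_conj _ _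
    rw [hc, RCLike.norm_conj, Finset.sum_congr rfl (hval (-t))]
    rw [abs_of_neg ht] at hlo hhi
    exact WKL_pos hKL (-t) _ _ y (y + h) θ lo hi m0 q N k (by linarith) hA hB hyy (by exact_mod_cast hq) hside hsh hθ hθ2
      (by rw [hqc]; exact hlo) (by rw [hqc]; exact hhi) hmm
  · exfalso
    rw [ht, abs_zero, mul_zero, zero_mul, zero_div] at hlo
    have : (0 : ℝ) ≤ k := Nat.cast_nonneg k
    linarith
  · rw [Finset.sum_congr rfl (hval t)]
    rw [abs_of_pos ht] at hlo hhi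
    exact WKL_pos hKL t _ _ y (y + h) θ lo hi m0 q N k ht hA hB hyy (by exact_mod_cast hq) hside hsh hθ hθ2
      (by rw [hqc]; exact hlo) (by rw [hqc]; exact hhi) hmm

end Pool.Agent.EU
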